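import Pool.Agent.W553.PM.StmB

/-! Project PM, projective part: between two feet there are only feet. -/

set_option autoImplicit false

namespace Pool.Agent.W239.PMB.Sector

open Pool.Agent.W553.PMB
open Set Filter Topology

theorem indep2 (φ : V →ₗ[ℝ] ℝ) (w a : V) (hw : φ w ≠ 0) (ha : φ a = 0) (ha0 : a ≠ 0) :
    LinearIndependent ℝ ![w, a] := by
  rw [LinearIndependent.pair_iff]
  intro s t h
  have h1 := congrArg φ h
  rw [map_add, map_smul, map_smul, ha, map_zero, smul_zero, add_zero, smul_eq_mul] at h1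
  have hs : s = 0 := by
    rcases mul_eq_zero.1 h1 with h | h
    · exact h
    · exact absurd h hw
  subst hs
  rw [zero_smul, zero_add] at h
  rcases smul_eq_zero.1 h with h | h
  · exact ⟨rfl, h⟩
  · exact absurd h ha0

theorem indep3 (φ : V →ₗ[ℝ] ℝ) (w a b F : V) (hw : φ w ≠ 0) (ha : φ a = 0) (hb : φ b = 0)
    (hab : LinearIndependent ℝ ![a, b]) (r s t : ℝ) (hr : r ≠ 0) (ht : t ≠ 0)
    (hF : F = w + (s • a + t • b)) : LinearIndependent ℝ ![w, w + r • a, F] := by
  rw [LinearIndependent.pair_iff] at hab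
  rw [Fintype.linearIndependent_iff]
  intro g hg
  rw [Fin.sum_univ_three] at hg
  simp only [Matrix.cons_val_zero, Matrix.cons_val_one, Matrix.cons_val_two, Matrix.head_cons,
    Matrix.tail_cons] at hg
  have h1 := congrArg φ hg
  rw [hF] at h1
  simp only [map_add, map_smul, ha, hb, map_zero, smul_eq_mul, mul_zero, add_zero] at h1
  have h2 : g 0 + g 1 + g 2 = 0 := by
    have : (g 0 + g 1 + g 2) * φ w = 0 := by linarith
    rcases mul_eq_zero.1 this with h | h
    · exact h
    · exact absurd h hw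
  have h3 : (g 1 * r + g 2 * s) • a + (g 2 * t) • b = 0 := by
    have h4 : g 0 • w + g 1 • (w + r • a) + g 2 • F =
        (g 0 + g 1 + g 2) • w + ((g 1 * r + g 2 * s) • a + (g 2 * t) • b) := by
      rw [hF]; module
    rw [h4, h2, zero_smul, zero_add] at hg
    exact hg
  obtain ⟨h5, h6⟩ := hab _ _ h3
  have h7 : g 2 = 0 := by
    rcases mul_eq_zero.1 h6 with h | h
    · exact h
    · exact absurd h ht
  have h8 : g 1 = 0 := by
    rw [h7, zero_mul, add_zero] at h5
    rcases mul_eq_zero.1 h5 with h | h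
    · exact h
    · exact absurd h hr
  have h9 : g 0 = 0 := by linarith
  intro i
  fin_cases i
  · exact h9
  · exact h8
  · exact h7

theorem smul_ray (w θ : V) (t : ℝ) (hc : 0 < Real.cos t) :
    Real.cos t • w + Real.sin t • θ = Real.cos t • (w + Real.tan t • θ) := by
  rw [smul_add, smul_smul, Real.tan_eq_sin_div_cos, mul_div_cancel₀ _ hc.ne']

theorem T_sector (h1 : S_le) (_h2 : S_foot) : S_sector := by
  intro δ Λ E φ hφ w hw hD θ₁ θ₂ f1 f2 hind α β hα hβ
  obtain ⟨le1, -, le3, le4, le5⟩ := h1 δ Λ E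
  have hw0 : w ≠ 0 := by rintro rfl; exact hw (map_zero φ)
  set θ : V := α • θ₁ + β • θ₂ with hθ
  have hθφ : φ θ = 0 := by rw [hθ, map_add, map_smul, map_smul, f1.2.1, f2.2.1]; simp
  have hθ0 : θ ≠ 0 := by
    intro h
    have := (LinearIndependent.pair_iff.1 hind) α β (by rw [← hθ]; exact h)
    exact hα.ne' this.1
  have homr : ∀ x y : V, x ≠ 0 → y ≠ 0 → ∀ c : ℝ, c ≠ 0 → δ x (c • y) = δ x y := by
    intro x y hx hy c hc
    rw [E.symm x (c • y) hx (smul_ne_zero hc hy), E.hom y x hy hx c hc, E.symm y x hy hx]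
  obtain ⟨l, lc, lm, l0, lπ, hl⟩ := E.line w θ (indep2 φ w θ hw hθφ hθ0)
  set D := hF δ φ w with hDdef
  have hD0 : 0 < D := le5 φ hφ w hw
  have hπ : (0 : ℝ) < Real.pi := Real.pi_pos
  have m0 : (0 : ℝ) ∈ Icc 0 Real.pi := ⟨le_rfl, hπ.le⟩
  have mh : Real.pi / 2 ∈ Icc 0 Real.pi := ⟨by positivity, by linarith⟩
  have c0 : Real.cos 0 • w + Real.sin 0 • θ = w := by simp
  have ch : Real.cos (Real.pi / 2) • w + Real.sin (Real.pi / 2) • θ = θ := by simp
  -- points of the ray
  have ray : ∀ t : ℝ, 0 ≤ t → t < Real.pi / 2 → ∀ x : V, x ≠ 0 →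
      δ x (w + Real.tan t • θ) = δ x (Real.cos t • w + Real.sin t • θ) := by
    intro t ht ht' x hx
    have hc : 0 < Real.cos t := Real.cos_pos_of_mem_Ioo ⟨by linarith, ht'⟩
    have e : Real.cos t • w + Real.sin t • θ = Real.cos t • (w + Real.tan t • θ) :=
      smul_ray w θ t hc
    have hne : w + Real.tan t • θ ≠ 0 := by
      intro h
      have := congrArg φ h
      rw [map_add, map_smul, hθφ, smul_zero, add_zero, map_zero] at this
      exact hw this
    rw [e, homr x _ hx hne _ hc.ne']
  have claim : l (Real.pi / 2) ≤ D := by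
    by_contra hc
    push Not at hc
    -- the point F
    obtain ⟨t0, ⟨ht0, ht0'⟩, hlt0⟩ : D ∈ l '' Ioo 0 (Real.pi / 2) := by
      apply intermediate_value_Ioo (by positivity)
        (lc.mono (Icc_subset_Icc le_rfl (by linarith)))
      exact ⟨by rw [l0]; exact hD0, hc⟩
    set r0 := Real.tan t0 with hr0
    have hr0p : 0 < r0 := Real.tan_pos_of_pos_of_lt_pi_div_two ht0 ht0'
    set F : V := w + r0 • θ with hFdef
    have hFφ : φ F = φ w := by rw [hFdef, map_add, map_smul, hθφ, smul_zero, add_zero]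
    have hF0 : F ≠ 0 := by
      intro h; rw [h, map_zero] at hFφ; exact hw hFφ.symm
    have hwF : δ w F = D := by
      rw [hFdef, hr0, ray t0 ht0.le ht0' w hw0]
      have := hl 0 m0 t0 ⟨ht0.le, by linarith⟩
      rw [c0, l0, hlt0] at this
      rw [this, zero_sub, abs_neg, abs_of_pos hD0, min_eq_left (by linarith)]
    obtain ⟨u, v, w', -, hq⟩ := E.conic φ hφ F (by rw [hFφ]; exact hw)
    set f : V → ℝ := fun X => δ X F - hF δ φ X with hf
    have fcont : ContinuousOn f {X | X ≠ 0} := by
      apply ContinuousOn.sub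
      · have : ContinuousOn (fun X : V => (X, F)) {X | X ≠ 0} := by fun_prop
        exact E.cont.comp this (fun X hX => ⟨hX, hF0⟩)
      · exact le4 φ hφ
    set q : V → ℝ := fun X => u X * w' X - (v X) ^ 2 with hqdef
    have fq : ∀ X : V, X ≠ 0 → (f X = 0 ↔ q X = 0) := by
      intro X hX
      simp only [hf, hqdef, sub_eq_zero]
      exact hq X hX
    have fker : ∀ X : V, X ≠ 0 → φ X = 0 → 0 < f X := by
      intro X hX hφX
      have e1 : hF δ φ X ≤ 0 := by
        have := le3 φ hφ X X hX hX hφX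
        have h0 : δ X X = 0 := by
          rw [E.zero X X hX hX]
          intro h
          have := LinearIndependent.pair_iff.1 h 1 (-1) (by simp)
          exact one_ne_zero this.1
        linarith
      have e2 : 0 < δ X F := by
        refine lt_of_le_of_ne (le1 X F hX hF0).1 (Ne.symm ?_)
        intro h
        rw [E.symm X F hX hF0, E.zero F X hF0 hX] at h
        exact h (indep2 φ F X (by rw [hFφ]; exact hw) hφX hX)
      simp only [hf]
      linarith
    -- normalise the sign
    obtain ⟨σ, hσ, hQθ⟩ : ∃ σ : ℝ, σ ≠ 0 ∧ 0 < σ * q θ := by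
      have hne : q θ ≠ 0 := fun h => (fker θ hθ0 hθφ).ne' ((fq θ hθ0).2 h)
      exact ⟨q θ, hne, mul_self_pos.2 hne⟩
    set Q : V → ℝ := fun X => σ * q X with hQ
    set b : V → V → ℝ := fun X Y => σ * ((u X * w' Y + u Y * w' X) / 2 - v X * v Y) with hb
    have exp : ∀ (X Y : V) (x y : ℝ),
        Q (x • X + y • Y) = x ^ 2 * Q X + 2 * x * y * b X Y + y ^ 2 * Q Y := by
      intro X Y x y
      simp only [hQ, hb, hqdef, map_add, map_smul, smul_eq_mul]
      ring
    have Q0 : Q 0 = 0 := by simp [hQ, hqdef]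
    have fQ : ∀ X : V, Q X ≠ 0 → X ≠ 0 ∧ f X ≠ 0 := by
      intro X hX
      have hX0 : X ≠ 0 := by rintro rfl; exact hX Q0
      refine ⟨hX0, fun h => hX ?_⟩
      simp only [hQ, (fq X hX0).1 h, mul_zero]
    have bneg : ∀ X Y : V, b X (-Y) = - b X Y := by
      intro X Y; simp only [hb, map_neg]; ring
    have Qneg : ∀ X : V, Q (-X) = Q X := by
      intro X; simp only [hQ, hqdef, map_neg]; ring
    have bself : ∀ X Y : V, b X Y = b Y X := by
      intro X Y; simp only [hb]; ring
    -- sign along paths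
    have path : ∀ X Y : V, (∀ τ ∈ Icc (0 : ℝ) 1, Q ((1 - τ) • X + τ • Y) ≠ 0) →
        (0 < f X ↔ 0 < f Y) := by
      intro X Y hXY
      set g : ℝ → ℝ := fun τ => f ((1 - τ) • X + τ • Y) with hg
      have gc : ContinuousOn g (Icc 0 1) := by
        apply fcont.comp (f := fun τ : ℝ => (1 - τ) • X + τ • Y)
        · fun_prop
        · intro τ hτ
          exact (fQ _ (hXY τ hτ)).1
      have gne : ∀ τ ∈ Icc (0 : ℝ) 1, g τ ≠ 0 := fun τ hτ => (fQ _ (hXY τ hτ)).2
      have g0 : g 0 = f X := by simp [hg]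
      have g1 : g 1 = f Y := by simp [hg]
      have m0 : (0 : ℝ) ∈ Icc (0 : ℝ) 1 := ⟨le_rfl, zero_le_one⟩
      have m1 : (1 : ℝ) ∈ Icc (0 : ℝ) 1 := ⟨zero_le_one, le_rfl⟩
      rw [← g0, ← g1]
      constructor
      · intro h
        by_contra hc
        push Not at hc
        obtain ⟨τ, hτ, hτ'⟩ := intermediate_value_Icc' zero_le_one gc ⟨hc, h.le⟩
        exact gne τ hτ hτ'
      · intro h
        by_contra hc
        push Not at hc
        obtain ⟨τ, hτ, hτ'⟩ := intermediate_value_Icc zero_le_one gc ⟨hc, h.le⟩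
        exact gne τ hτ hτ'
    -- the kernel
    have Qker : ∀ ξ : V, ξ ≠ 0 → φ ξ = 0 → 0 < Q ξ := by
      intro ξ hξ hξφ
      have hne : Q ξ ≠ 0 := by
        intro h
        have : q ξ = 0 := by
          rcases mul_eq_zero.1 h with h | h
          · exact absurd h hσ
          · exact h
        exact (fker ξ hξ hξφ).ne' ((fq ξ hξ).2 this)
      by_contra hc
      have hneg : Q ξ < 0 := lt_of_le_of_ne (not_lt.1 hc) hne
      -- a zero on the segment
      set g : ℝ → ℝ := fun τ => Q ((1 - τ) • ξ + τ • θ) with hg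
      have gc : ContinuousOn g (Icc 0 1) := by
        have : g = fun τ => (1 - τ) ^ 2 * Q ξ + 2 * (1 - τ) * τ * b ξ θ + τ ^ 2 * Q θ := by
          funext τ; exact exp ξ θ (1 - τ) τ
        rw [this]
        fun_prop
      have g0 : g 0 = Q ξ := by simp [hg]
      have g1 : g 1 = Q θ := by simp [hg]
      obtain ⟨τ, hτ, hτ'⟩ := intermediate_value_Icc zero_le_one gc
        (show (0 : ℝ) ∈ Icc (g 0) (g 1) from ⟨by rw [g0]; exact hneg.le, by rw [g1]; exact hQθ.le⟩)
      set X := (1 - τ) • ξ + τ • θ with hX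
      have hXφ : φ X = 0 := by rw [hX, map_add, map_smul, map_smul, hξφ, hθφ]; simp
      by_cases hX0 : X = 0
      · -- parallel
        have hτ0 : τ ≠ 0 := by
          rintro rfl
          rw [hX] at hX0
          simp at hX0
          exact hξ hX0
        have e : (τ : ℝ) • θ = (-(1 - τ)) • ξ := by
          rw [hX] at hX0
          have := eq_neg_of_add_eq_zero_right hX0
          rw [this, neg_smul]
        have e2 : Q (τ • θ) = τ ^ 2 * Q θ := by
          have := exp θ 0 τ 0
          simpa using this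
        have e3 : Q ((-(1 - τ)) • ξ) = (-(1 - τ)) ^ 2 * Q ξ := by
          have := exp ξ 0 (-(1 - τ)) 0
          simpa using this
        rw [← e, e2] at e3
        have : 0 < τ ^ 2 * Q θ := by positivity
        nlinarith [sq_nonneg (-(1 - τ))]
      · have h5 : Q X ≠ 0 := by
          intro h
          have : q X = 0 := by
            rcases mul_eq_zero.1 h with h | h
            · exact absurd h hσ
            · exact h
          exact (fker X hX0 hXφ).ne' ((fq X hX0).2 this)
        exact h5 hτ'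
    -- (i)
    have hi : ∀ X : V, φ X = φ w → 0 < Q X → 0 < f X := by
      intro X hXφ hQX
      obtain ⟨ξ, hξ0, hξφ, hbξ⟩ : ∃ ξ : V, ξ ≠ 0 ∧ φ ξ = 0 ∧ 0 ≤ b X ξ := by
        rcases le_total 0 (b X θ) with h | h
        · exact ⟨θ, hθ0, hθφ, h⟩
        · exact ⟨-θ, neg_ne_zero.2 hθ0, by rw [map_neg, hθφ, neg_zero], by rw [bneg]; linarith⟩
      have hQξ := Qker ξ hξ0 hξφ
      refine (path X ξ ?_).2 (fker ξ hξ0 hξφ)
      intro τ hτ
      rw [exp]
      apply ne_of_gt
      rcases hτ.1.eq_or_lt with h0 | h0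
      · rw [← h0]; simp; exact hQX
      · have h6 : 0 ≤ (1 - τ) := by linarith [hτ.2]
        have h7 : 0 < τ ^ 2 * Q ξ := by positivity
        have h8 : 0 ≤ 2 * (1 - τ) * τ * b X ξ := by positivity
        have h9 : 0 ≤ (1 - τ) ^ 2 * Q X := by positivity
        linarith
    -- (ii)
    have hFF : f F < 0 := by
      have h0 : δ F F = 0 := by
        rw [E.zero F F hF0 hF0]
        intro h
        have := LinearIndependent.pair_iff.1 h 1 (-1) (by simp)
        exact one_ne_zero this.1
      have := le5 φ hφ F (by rw [hFφ]; exact hw)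
      simp only [hf]
      linarith
    have hQF : Q F < 0 := by
      have h1 : ¬ 0 < Q F := fun h => absurd (hi F hFφ h) (not_lt.2 hFF.le)
      refine lt_of_le_of_ne (not_lt.1 h1) ?_
      intro h
      have : q F = 0 := by
        rcases mul_eq_zero.1 h with h | h
        · exact absurd h hσ
        · exact h
      exact hFF.ne ((fq F hF0).2 this)
    -- (iii)
    have hiii : ∀ X : V, φ X = φ w → Q X < 0 → f X < 0 := by
      intro X hXφ hQX
      have hXF : 0 ≤ Q (X - F) := by
        by_cases h : X - F = 0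
        · rw [h, Q0]
        · exact (Qker _ h (by rw [map_sub, hXφ, hFφ, sub_self])).le
      have key : ∀ τ ∈ Icc (0 : ℝ) 1, Q ((1 - τ) • X + τ • F) ≠ 0 := by
        intro τ hτ
        apply ne_of_lt
        have e1 := exp X F (1 - τ) τ
        have e2 : Q (X - F) = Q X - 2 * b X F + Q F := by
          have := exp X F 1 (-1)
          rw [one_smul, neg_one_smul, ← sub_eq_add_neg] at this
          rw [this]; ring
        rw [e1]
        have h3 : (1 - τ) ^ 2 * Q X + 2 * (1 - τ) * τ * b X F + τ ^ 2 * Q F =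
            (1 - τ) * Q X + τ * Q F - τ * (1 - τ) * Q (X - F) := by
          rw [e2]; ring
        rw [h3]
        have h4 : 0 ≤ τ * (1 - τ) * Q (X - F) := by
          have : 0 ≤ 1 - τ := by linarith [hτ.2]
          have := hτ.1
          positivity
        have h5 : (1 - τ) * Q X + τ * Q F < 0 := by
          rcases hτ.1.eq_or_lt with h0 | h0
          · rw [← h0]; linarith
          · have h6 : τ * Q F < 0 := mul_neg_of_pos_of_neg h0 hQF
            have h7 : (1 - τ) * Q X ≤ 0 :=
              mul_nonpos_of_nonneg_of_nonpos (by linarith [hτ.2]) hQX.le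
            linarith
        linarith
      have h1 : ¬ 0 < f X := fun h => absurd ((path X F key).1 h) (not_lt.2 hFF.le)
      exact lt_of_le_of_ne (not_lt.1 h1) (fQ X hQX.ne).2
    -- (iv)
    have hQw : Q w = 0 := by
      have : f w = 0 := by simp only [hf]; rw [hwF, ← hDdef, sub_self]
      simp only [hQ, (fq w hw0).1 this, mul_zero]
    have hbw : b w θ < 0 := by
      have e := exp w θ 1 r0
      rw [one_smul, ← hFdef, hQw] at e
      have h3 : 0 < r0 ^ 2 * Q θ := by positivity
      have h4 : 2 * 1 * r0 * b w θ < 0 := by nlinarith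
      by_contra h
      push Not at h
      have : 0 ≤ 2 * 1 * r0 * b w θ := by positivity
      linarith
    -- (v)
    have hv : ∀ (a c : V) (s t : ℝ), Foot δ φ w a → φ c = 0 → LinearIndependent ℝ ![a, c] →
        t ≠ 0 → θ = s • a + t • c → 0 ≤ b w a := by
      intro a c s t fa hc hac ht hθac
      by_contra hneg
      push Not at hneg
      have hQa : 0 < Q a := Qker a fa.1 fa.2.1
      set r := - b w a / Q a with hr
      have hrp : 0 < r := div_pos (by linarith) hQa
      set X : V := w + r • a with hX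
      have hXφ : φ X = φ w := by rw [hX, map_add, map_smul, fa.2.1, smul_zero, add_zero]
      have hX0 : X ≠ 0 := by intro h; rw [h, map_zero] at hXφ; exact hw hXφ.symm
      have e1 := exp w a 1 r
      rw [one_smul, ← hX, hQw] at e1
      have e2 : r * Q a = - b w a := by rw [hr]; field_simp
      have hQX : Q X < 0 := by
        rw [e1]
        have : r ^ 2 * Q a = - (r * b w a) := by rw [pow_two, mul_assoc, e2]; ring
        rw [this]
        nlinarith
      have hfX := hiii X hXφ hQX
      have h5 : hF δ φ X ≤ δ X a := le3 φ hφ X a hX0 fa.1 fa.2.1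
      have h6 : δ w X + δ X a = D := by
        exact (fa.2.2.2 r hrp.le).trans fa.2.2.1
      have h7 : δ w F < δ w X + δ X F := by
        apply E.strict
        apply indep3 φ w a c F hw fa.2.1 hc hac r (r0 * s) (r0 * t) hrp.ne'
          (mul_ne_zero hr0p.ne' ht)
        rw [hFdef, hθac, smul_add, smul_smul, smul_smul]
      rw [hwF] at h7
      simp only [hf] at hfX
      linarith
    have b1 : 0 ≤ b w θ₁ := hv θ₁ θ₂ α β f1 f2.2.1 hind hβ.ne' hθ
    have b2 : 0 ≤ b w θ₂ := by
      apply hv θ₂ θ₁ β α f2 f1.2.1 _ hα.ne' (by rw [hθ, add_comm])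
      rw [LinearIndependent.pair_iff] at hind ⊢
      intro s t h
      have := hind t s (by rw [add_comm]; exact h)
      exact ⟨this.2, this.1⟩
    have b3 : b w θ = α * b w θ₁ + β * b w θ₂ := by
      rw [hθ]
      simp only [hb, map_add, map_smul, smul_eq_mul]
      ring
    have : 0 ≤ b w θ := by rw [b3]; positivity
    linarith
  -- conclusion
  have hwθ := hl 0 m0 (Real.pi / 2) mh
  rw [c0, ch, l0, zero_sub, abs_neg] at hwθ
  have lh0 : 0 ≤ l (Real.pi / 2) := by
    rw [← l0]; exact lm.monotoneOn m0 mh (by positivity)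
  rw [abs_of_nonneg lh0] at hwθ
  have h3 : D ≤ δ w θ := le3 φ hφ w θ hw0 hθ0 hθφ
  have h4 : δ w θ ≤ l (Real.pi / 2) := by rw [hwθ]; exact min_le_left _ _
  have h5 : l (Real.pi / 2) = D := le_antisymm claim (h3.trans h4)
  have h6 : δ w θ = D := le_antisymm (h4.trans claim) h3
  refine ⟨hθ0, hθφ, h6, ?_⟩
  intro r hr
  set t := Real.arctan r with ht
  have ht0 : 0 ≤ t := Real.arctan_nonneg.2 hr
  have ht1 : t < Real.pi / 2 := Real.arctan_lt_pi_div_two r
  have htan : Real.tan t = r := Real.tan_arctan r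
  have mt : t ∈ Icc 0 Real.pi := ⟨ht0, by linarith⟩
  have hne : w + r • θ ≠ 0 := by
    intro h
    have := congrArg φ h
    rw [map_add, map_smul, hθφ, smul_zero, add_zero, map_zero] at this
    exact hw this
  have lt0 : 0 ≤ l t := by rw [← l0]; exact lm.monotoneOn m0 mt ht0
  have lt1 : l t ≤ l (Real.pi / 2) := lm.monotoneOn mt mh ht1.le
  have g1 : δ w (w + r • θ) = l t := by
    rw [← htan, ray t ht0 ht1 w hw0]
    have := hl 0 m0 t mt
    rw [c0, l0, zero_sub, abs_neg, abs_of_nonneg lt0] at this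
    rw [this, min_eq_left (by linarith)]
  have g2 : δ (w + r • θ) θ = l (Real.pi / 2) - l t := by
    rw [E.symm _ _ hne hθ0, ← htan, ray t ht0 ht1 θ hθ0]
    have := hl (Real.pi / 2) mh t mt
    rw [ch, abs_of_nonneg (by linarith)] at this
    rw [this, min_eq_left (by linarith)]
  rw [g1, g2, h6, h5]
  ring

end Pool.Agent.W239.PMB.Sector
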